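import Pool.Agent.Helper43.CpExact

/-!
# Condensations of `C_p(X)` onto spaces of countable pi-weight: the exact answer
-/

set_option autoImplicit false
open TopologicalSpace

universe u

namespace Pool.Agent.Results.MP_0eb590_gt.DensityContinuum

/-- For a Tychonoff space `X` the following are equivalent: `C_p(X)` condenses onto a Tychonoff
space of countable pi-weight; `C_p(X)` has a continuous injection into a Hausdorff space of
countable pi-weight; `X` has a dense subset of cardinality at most the continuum. -/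
theorem result (X : Type u) [TopologicalSpace X] [T35Space X] :
    List.TFAE [
      ∃ (Y : Type u) (τ : TopologicalSpace Y), T35Space Y ∧
        ∃ g : C(X, ℝ) → Y, Function.Bijective g ∧
          @Continuous C(X, ℝ) Y
            (TopologicalSpace.induced (fun f : C(X, ℝ) => (⇑f : X → ℝ)) Pi.topologicalSpace)
            τ g ∧
          ∃ B : Set (Set Y), B.Countable ∧
            (∀ P ∈ B, IsOpen P ∧ P.Nonempty) ∧
            ∀ U : Set Y, IsOpen U → U.Nonempty → ∃ P ∈ B, P ⊆ U,
      ∃ (Y : Type u) (τ : TopologicalSpace Y), T2Space Y ∧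
        ∃ g : C(X, ℝ) → Y, Function.Injective g ∧
          @Continuous C(X, ℝ) Y
            (TopologicalSpace.induced (fun f : C(X, ℝ) => (⇑f : X → ℝ)) Pi.topologicalSpace)
            τ g ∧
          ∃ B : Set (Set Y), B.Countable ∧
            (∀ P ∈ B, IsOpen P ∧ P.Nonempty) ∧
            ∀ U : Set Y, IsOpen U → U.Nonempty → ∃ P ∈ B, P ⊆ U,
      ∃ D : Set X, Dense D ∧ Cardinal.mk D ≤ Cardinal.continuum] := by
  tfae_have 1 → 2 := by
    rintro ⟨Y, τ, hT, g, hg, hgc, B, hB⟩
    exact ⟨Y, τ, inferInstance, g, hg.1, hgc, B, hB⟩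
  tfae_have 2 → 3 := by
    rintro ⟨Y, τ, hT, g, hg, hgc, B, hB1, hB2, hB3⟩
    exact Pool.Agent.Helper43.CpCond.dense_of_condenses g hg hgc B hB1 hB2 hB3
  tfae_have 3 → 1 := by
    rintro ⟨D, hD, hc⟩
    exact Pool.Agent.Helper43.CpCond.condenses_of_dense D hD hc
  tfae_finish

end Pool.Agent.Results.MP_0eb590_gt.DensityContinuum
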